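import Pool.Agent.Helper38.FNoethProof

set_option autoImplicit false

namespace Pool.Agent.Results.MP_f4ff42_al.FNoethNotFG

open Pool.Agent.Helper38.FNoeth

/-- There is a completely regular semigroup that is f-noetherian but not finitely generated. -/
theorem result : ∃ (S : Type) (_ : Semigroup S),
    CompletelyRegular S ∧ FNoetherian S ∧ ¬ FinitelyGenerated S :=
  ⟨T, inferInstance, T.completelyRegular, T.fNoetherian, T.not_finitelyGenerated⟩

end Pool.Agent.Results.MP_f4ff42_al.FNoethNotFG
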